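import Mathlib

set_option autoImplicit false

/-!
An orientation preserving piecewise Moebius expanding map of `[4, 8]` with four full branches whose
natural extension domain `K` in the plane is not connected.

The four branches carry `[7,8]`, `[6,7]`, `[5,6]`, `[4,5]` onto `[4,8]`; in the coordinate
`w = x - 1/y` the planar extension acts by `(x, w) ↦ (M x, M w)`, and the two disjoint intervals
`[0,1]` and `[2,3]` are together tiled by their images under the four Moebius maps.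
-/

open Set MeasureTheory

namespace Pool.Agent.Results.MP_68eddd_an.DisconnectedDomain

/-- An orientation preserving piecewise Moebius map `T` of the compact interval `[lo, hi]`, given by
compact intervals `[p α, q α]` covering it (pairwise overlaps of measure zero) and matrices
`M α ∈ SL(2, ℝ)` with lower left entry `c ≥ 0`, subject to: the Moebius map of `M α` is defined on
`[p α, q α]` and maps it into `[lo, hi]`; the images cover; expansion; boundedness. -/
structure PiecewiseMobius (A : Type) where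
  lo : ℝ
  hi : ℝ
  lo_lt_hi : lo < hi
  p : A → ℝ
  q : A → ℝ
  p_lt_q : ∀ α, p α < q α
  cover : (⋃ α, Icc (p α) (q α)) = Icc lo hi
  overlap : ∀ α β, α ≠ β → volume (Icc (p α) (q α) ∩ Icc (p β) (q β)) = 0
  M : A → Matrix.SpecialLinearGroup (Fin 2) ℝ
  c_nonneg : ∀ α, 0 ≤ (M α) 1 0
  denom_ne : ∀ α, ∀ x ∈ Icc (p α) (q α), (M α) 1 0 * x + (M α) 1 1 ≠ 0
  onto : (⋃ α, (fun x : ℝ => ((M α) 0 0 * x + (M α) 0 1) / ((M α) 1 0 * x + (M α) 1 1)) ''
    Icc (p α) (q α)) = Icc lo hi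
  expansion : ∃ k : ℝ, k < 1 ∧ ∀ α, ∀ x ∈ Icc (p α) (q α),
    ((M α) 1 0 * x + (M α) 1 1) ^ 2 ≤ k
  bounded : ∃ B : ℝ, ∀ α, ∀ x ∈ Icc (p α) (q α),
    |(M α) 1 0 * ((M α) 1 0 * x + (M α) 1 1)| ≤ B

/-- The planar map `T̃_α(x, y) = (T_α x, (c x + d)² y - c (c x + d))`. -/
noncomputable def PiecewiseMobius.ext {A : Type} (D : PiecewiseMobius A) (α : A) (z : ℝ × ℝ) :
    ℝ × ℝ :=
  (((D.M α) 0 0 * z.1 + (D.M α) 0 1) / ((D.M α) 1 0 * z.1 + (D.M α) 1 1),
    ((D.M α) 1 0 * z.1 + (D.M α) 1 1) ^ 2 * z.2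
      - (D.M α) 1 0 * ((D.M α) 1 0 * z.1 + (D.M α) 1 1))

/-- The set `T̃(K)`: the union of the images `T̃_α(K_α)`, `K_α = K ∩ ([p α, q α] × ℝ)`. -/
def PiecewiseMobius.image {A : Type} (D : PiecewiseMobius A) (K : Set (ℝ × ℝ)) : Set (ℝ × ℝ) :=
  ⋃ α, D.ext α '' (K ∩ (Icc (D.p α) (D.q α) ×ˢ univ))

/-- `K` is a compact subset of `[lo, hi] × ℝ` projecting onto `[lo, hi]` with
`K = closure (T̃(K))`. -/
def PiecewiseMobius.IsDomain {A : Type} (D : PiecewiseMobius A) (K : Set (ℝ × ℝ)) : Prop :=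
  IsCompact K ∧ Prod.fst '' K = Icc D.lo D.hi ∧ K = closure (D.image K)

/-- numerators and denominators, up to normalisation -/
def na : Fin 4 → ℝ := ![-4, -4, 4, 4]
def nb : Fin 4 → ℝ := ![0, -4, -40, -36]
def nc : Fin 4 → ℝ := ![3, 3, 3, 3]
def nd : Fin 4 → ℝ := ![-28, -25, -20, -17]
def nD : Fin 4 → ℝ := ![112, 112, 40, 40]
def pp : Fin 4 → ℝ := ![7, 6, 5, 4]
def qq : Fin 4 → ℝ := ![8, 7, 6, 5]

lemma nD_pos (i : Fin 4) : 0 < nD i := by fin_cases i <;> simp [nD]

lemma det_eq (i : Fin 4) : na i * nd i - nb i * nc i = nD i := by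
  fin_cases i <;> simp [na, nb, nc, nd, nD] <;> norm_num

noncomputable def r (i : Fin 4) : ℝ := (Real.sqrt (nD i))⁻¹

lemma r_pos (i : Fin 4) : 0 < r i := inv_pos.2 (Real.sqrt_pos.2 (nD_pos i))

lemma r_sq (i : Fin 4) : r i * r i * nD i = 1 := by
  have h := Real.mul_self_sqrt (nD_pos i).le
  have h2 : Real.sqrt (nD i) ≠ 0 := (Real.sqrt_pos.2 (nD_pos i)).ne'
  unfold r
  field_simp
  nlinarith

noncomputable def Mat (i : Fin 4) : Matrix.SpecialLinearGroup (Fin 2) ℝ :=
  ⟨!![r i * na i, r i * nb i; r i * nc i, r i * nd i], by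
    rw [Matrix.det_fin_two_of]
    have h1 := r_sq i
    have h2 := det_eq i
    rw [← h2] at h1
    linarith⟩

@[simp] lemma Mat00 (i : Fin 4) : (Mat i) 0 0 = r i * na i := rfl
@[simp] lemma Mat01 (i : Fin 4) : (Mat i) 0 1 = r i * nb i := rfl
@[simp] lemma Mat10 (i : Fin 4) : (Mat i) 1 0 = r i * nc i := rfl
@[simp] lemma Mat11 (i : Fin 4) : (Mat i) 1 1 = r i * nd i := rfl

/-- the denominator is negative on the interval -/
lemma den_neg (i : Fin 4) {x : ℝ} (hx : x ∈ Icc (pp i) (qq i)) : nc i * x + nd i < 0 := by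
  obtain ⟨h1, h2⟩ := hx
  fin_cases i <;> simp [pp, qq, nc, nd] at * <;> linarith

lemma den_sq (i : Fin 4) {x : ℝ} (hx : x ∈ Icc (pp i) (qq i)) :
    (nc i * x + nd i) ^ 2 ≤ (5/8) * nD i := by
  obtain ⟨h1, h2⟩ := hx
  fin_cases i <;> simp [pp, qq, nc, nd, nD] at * <;> nlinarith

noncomputable def T (i : Fin 4) (x : ℝ) : ℝ := (na i * x + nb i) / (nc i * x + nd i)

lemma T_eq (i : Fin 4) (x : ℝ) :
    (r i * na i * x + r i * nb i) / (r i * nc i * x + r i * nd i) = T i x := by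
  have h := (r_pos i).ne'
  unfold T
  rw [show r i * na i * x + r i * nb i = r i * (na i * x + nb i) by ring,
    show r i * nc i * x + r i * nd i = r i * (nc i * x + nd i) by ring,
    mul_div_mul_left _ _ h]

/-- the branch is onto, with explicit inverse -/
noncomputable def Tinv (i : Fin 4) (y : ℝ) : ℝ := (nd i * y - nb i) / (-(nc i) * y + na i)

lemma dinv_neg (i : Fin 4) {y : ℝ} (hy : y ∈ Icc (4:ℝ) 8) : -(nc i) * y + na i < 0 := by
  obtain ⟨h1, h2⟩ := hy
  fin_cases i <;> simp [nc, na] at * <;> linarith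

lemma Tinv_mem (i : Fin 4) {y : ℝ} (hy : y ∈ Icc (4:ℝ) 8) : Tinv i y ∈ Icc (pp i) (qq i) := by
  have h := dinv_neg i hy
  obtain ⟨h1, h2⟩ := hy
  unfold Tinv
  constructor
  · rw [le_div_iff_of_neg h]
    fin_cases i <;> simp [pp, qq, nc, nd, na, nb] at * <;> linarith
  · rw [div_le_iff_of_neg h]
    fin_cases i <;> simp [pp, qq, nc, nd, na, nb] at * <;> linarith

lemma Tinv_alg (i : Fin 4) {y : ℝ} (h : -(nc i) * y + na i ≠ 0) :
    na i * Tinv i y + nb i = y * (nc i * Tinv i y + nd i) := by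
  have e : Tinv i y * (-(nc i) * y + na i) = nd i * y - nb i := by
    unfold Tinv
    exact div_mul_cancel₀ _ h
  linear_combination e

lemma T_Tinv (i : Fin 4) {y : ℝ} (hy : y ∈ Icc (4:ℝ) 8) : T i (Tinv i y) = y := by
  have h := dinv_neg i hy
  have h2 := den_neg i (Tinv_mem i hy)
  have h3 := (nD_pos i).ne'
  have h4 := det_eq i
  unfold T
  rw [div_eq_iff h2.ne]
  exact Tinv_alg i h.ne

lemma T_mem (i : Fin 4) {x : ℝ} (hx : x ∈ Icc (pp i) (qq i)) : T i x ∈ Icc (4:ℝ) 8 := by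
  have h := den_neg i hx
  obtain ⟨h1, h2⟩ := hx
  unfold T
  constructor
  · rw [le_div_iff_of_neg h]
    fin_cases i <;> simp [pp, qq, nc, nd, na, nb] at * <;> linarith
  · rw [div_le_iff_of_neg h]
    fin_cases i <;> simp [pp, qq, nc, nd, na, nb] at * <;> linarith

/-- the map -/
noncomputable def D : PiecewiseMobius (Fin 4) where
  lo := 4
  hi := 8
  lo_lt_hi := by norm_num
  p := pp
  q := qq
  p_lt_q := by intro i; fin_cases i <;> simp [pp, qq] <;> norm_num
  cover := by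
    ext x
    simp only [mem_iUnion, mem_Icc]
    constructor
    · rintro ⟨i, h1, h2⟩
      fin_cases i <;> simp [pp, qq] at h1 h2 <;> constructor <;> linarith
    · rintro ⟨h1, h2⟩
      rcases le_total x 6 with h | h
      · rcases le_total x 5 with h' | h'
        · exact ⟨3, by simp [pp, qq]; constructor <;> linarith⟩
        · exact ⟨2, by simp [pp, qq]; constructor <;> linarith⟩
      · rcases le_total x 7 with h' | h'
        · exact ⟨1, by simp [pp, qq]; constructor <;> linarith⟩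
        · exact ⟨0, by simp [pp, qq]; constructor <;> linarith⟩
  overlap := by
    intro i j hij
    rw [Icc_inter_Icc, Real.volume_Icc, ENNReal.ofReal_eq_zero]
    fin_cases i <;> fin_cases j <;> simp [pp, qq] at * <;> norm_num
  M := Mat
  c_nonneg := by
    intro i
    rw [Mat10]
    have := r_pos i
    have h : 0 ≤ nc i := by fin_cases i <;> simp [nc]
    positivity
  denom_ne := by
    intro i x hx
    rw [Mat10, Mat11]
    have h := den_neg i hx
    have h2 := r_pos i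
    have : r i * nc i * x + r i * nd i = r i * (nc i * x + nd i) := by ring
    rw [this]
    exact (mul_neg_of_pos_of_neg h2 h).ne
  onto := by
    ext y
    simp only [mem_iUnion, mem_image, Mat00, Mat01, Mat10, Mat11, T_eq]
    constructor
    · rintro ⟨i, x, hx, rfl⟩
      exact T_mem i hx
    · intro hy
      exact ⟨0, Tinv 0 y, Tinv_mem 0 hy, T_Tinv 0 hy⟩
  expansion := by
    refine ⟨5/8, by norm_num, ?_⟩
    intro i x hx
    rw [Mat10, Mat11]
    have h := den_sq i hx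
    have h1 := r_sq i
    have h2 := r_pos i
    calc (r i * nc i * x + r i * nd i) ^ 2 = (r i * r i) * (nc i * x + nd i) ^ 2 := by ring
      _ ≤ (r i * r i) * ((5/8) * nD i) := by gcongr
      _ = 5/8 * (r i * r i * nD i) := by ring
      _ = 5/8 := by rw [h1]; ring
  bounded := by
    have key : ∀ i : Fin 4, ∃ B : ℝ, ∀ x ∈ Icc (pp i) (qq i),
        |(Mat i) 1 0 * ((Mat i) 1 0 * x + (Mat i) 1 1)| ≤ B := by
      intro i
      have hc : ContinuousOn (fun x : ℝ => |(Mat i) 1 0 * ((Mat i) 1 0 * x + (Mat i) 1 1)|)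
          (Icc (pp i) (qq i)) := by fun_prop
      obtain ⟨B, hB⟩ := isCompact_Icc.bddAbove_image hc
      exact ⟨B, fun x hx => hB (mem_image_of_mem _ hx)⟩
    choose B hB using key
    refine ⟨∑ i, |B i|, fun i x hx => (hB i x hx).trans ((le_abs_self _).trans ?_)⟩
    exact Finset.single_le_sum (f := fun i => |B i|) (fun _ _ => abs_nonneg _) (Finset.mem_univ i)

/-- the two-component window -/
def W : Set ℝ := Icc 0 1 ∪ Icc 2 3

lemma W_lt {w : ℝ} (hw : w ∈ W) : 0 ≤ w ∧ w ≤ 3 := by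
  rcases hw with ⟨h1, h2⟩ | ⟨h1, h2⟩ <;> constructor <;> linarith

/-- the natural extension domain -/
def K : Set (ℝ × ℝ) := (fun z : ℝ × ℝ => (z.1, (z.1 - z.2)⁻¹)) '' (Icc 4 8 ×ˢ W)

lemma W_compact : IsCompact W := isCompact_Icc.union isCompact_Icc

lemma K_compact : IsCompact K := by
  refine (isCompact_Icc.prod W_compact).image_of_continuousOn ?_
  refine continuousOn_fst.prodMk ?_
  refine ContinuousOn.inv₀ (by fun_prop) ?_
  rintro ⟨x, w⟩ ⟨hx, hw⟩
  have := (W_lt hw).2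
  have h4 : (4:ℝ) ≤ x := hx.1
  simp only
  linarith

/-- denominators on the window -/
lemma denW (i : Fin 4) {w : ℝ} (hw : w ∈ W) : nc i * w + nd i < 0 := by
  obtain ⟨h1, h2⟩ := W_lt hw
  fin_cases i <;> simp [nc, nd] <;> linarith

lemma T_W (i : Fin 4) {w : ℝ} (hw : w ∈ W) : T i w ∈ W := by
  have h := denW i hw
  rcases hw with ⟨h1, h2⟩ | ⟨h1, h2⟩
  · fin_cases i
    · left
      constructor
      · unfold T; rw [le_div_iff_of_neg h]; simp [nc, nd, na, nb] at *; linarith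
      · unfold T; rw [div_le_iff_of_neg h]; simp [nc, nd, na, nb] at *; linarith
    · left
      constructor
      · unfold T; rw [le_div_iff_of_neg h]; simp [nc, nd, na, nb] at *; linarith
      · unfold T; rw [div_le_iff_of_neg h]; simp [nc, nd, na, nb] at *; linarith
    · right
      constructor
      · unfold T; rw [le_div_iff_of_neg h]; simp [nc, nd, na, nb] at *; linarith
      · unfold T; rw [div_le_iff_of_neg h]; simp [nc, nd, na, nb] at *; linarith
    · right
      constructor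
      · unfold T; rw [le_div_iff_of_neg h]; simp [nc, nd, na, nb] at *; linarith
      · unfold T; rw [div_le_iff_of_neg h]; simp [nc, nd, na, nb] at *; linarith
  · fin_cases i
    · left
      constructor
      · unfold T; rw [le_div_iff_of_neg h]; simp [nc, nd, na, nb] at *; linarith
      · unfold T; rw [div_le_iff_of_neg h]; simp [nc, nd, na, nb] at *; linarith
    · left
      constructor
      · unfold T; rw [le_div_iff_of_neg h]; simp [nc, nd, na, nb] at *; linarith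
      · unfold T; rw [div_le_iff_of_neg h]; simp [nc, nd, na, nb] at *; linarith
    · right
      constructor
      · unfold T; rw [le_div_iff_of_neg h]; simp [nc, nd, na, nb] at *; linarith
      · unfold T; rw [div_le_iff_of_neg h]; simp [nc, nd, na, nb] at *; linarith
    · right
      constructor
      · unfold T; rw [le_div_iff_of_neg h]; simp [nc, nd, na, nb] at *; linarith
      · unfold T; rw [div_le_iff_of_neg h]; simp [nc, nd, na, nb] at *; linarith

lemma dinvW (i : Fin 4) {w : ℝ} (hw : w ∈ W) (hi : (i = 0 ∨ i = 1) ∧ w ≤ 1 ∨ (i = 2 ∨ i = 3) ∧ 2 ≤ w) :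
    -(nc i) * w + na i < 0 := by
  obtain ⟨h1, h2⟩ := W_lt hw
  rcases hi with ⟨rfl | rfl, h⟩ | ⟨rfl | rfl, h⟩ <;> simp [nc, na] <;> linarith

lemma T_surj_W {w : ℝ} (hw : w ∈ W) : ∃ i : Fin 4, ∃ v ∈ W, T i v = w := by
  have main : ∀ i : Fin 4, ((i = 0 ∨ i = 1) ∧ w ≤ 1 ∨ (i = 2 ∨ i = 3) ∧ 2 ≤ w) →
      Tinv i w ∈ W → ∃ i : Fin 4, ∃ v ∈ W, T i v = w := by
    intro i hi hv
    refine ⟨i, Tinv i w, hv, ?_⟩
    have h := dinvW i hw hi
    have h2 := denW i hv
    have h3 := (nD_pos i).ne'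
    unfold T
    rw [div_eq_iff h2.ne]
    exact Tinv_alg i h.ne
  rcases hw with ⟨h1, h2⟩ | ⟨h1, h2⟩
  · have hW : w ∈ W := Or.inl ⟨h1, h2⟩
    have e0 : -(nc 0) * w + na 0 < 0 := dinvW 0 hW (Or.inl ⟨Or.inl rfl, h2⟩)
    have e1 : -(nc 1) * w + na 1 < 0 := dinvW 1 hW (Or.inl ⟨Or.inr rfl, h2⟩)
    rcases le_total w (4/25) with h | h
    · refine main 0 (Or.inl ⟨Or.inl rfl, h2⟩) (Or.inl ⟨?_, ?_⟩)
      · unfold Tinv; rw [le_div_iff_of_neg e0]; simp [nc, nd, na, nb] at *; linarith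
      · unfold Tinv; rw [div_le_iff_of_neg e0]; simp [nc, nd, na, nb] at *; linarith
    · rcases le_total w (4/11) with h' | h'
      · refine main 1 (Or.inl ⟨Or.inr rfl, h2⟩) (Or.inl ⟨?_, ?_⟩)
        · unfold Tinv; rw [le_div_iff_of_neg e1]; simp [nc, nd, na, nb] at *; linarith
        · unfold Tinv; rw [div_le_iff_of_neg e1]; simp [nc, nd, na, nb] at *; linarith
      · rcases le_total w (12/19) with h'' | h''
        · refine main 0 (Or.inl ⟨Or.inl rfl, h2⟩) (Or.inr ⟨?_, ?_⟩)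
          · unfold Tinv; rw [le_div_iff_of_neg e0]; simp [nc, nd, na, nb] at *; linarith
          · unfold Tinv; rw [div_le_iff_of_neg e0]; simp [nc, nd, na, nb] at *; linarith
        · refine main 1 (Or.inl ⟨Or.inr rfl, h2⟩) (Or.inr ⟨?_, ?_⟩)
          · unfold Tinv; rw [le_div_iff_of_neg e1]; simp [nc, nd, na, nb] at *; linarith
          · unfold Tinv; rw [div_le_iff_of_neg e1]; simp [nc, nd, na, nb] at *; linarith
  · have hW : w ∈ W := Or.inr ⟨h1, h2⟩
    have e2 : -(nc 2) * w + na 2 < 0 := dinvW 2 hW (Or.inr ⟨Or.inl rfl, h1⟩)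
    have e3 : -(nc 3) * w + na 3 < 0 := dinvW 3 hW (Or.inr ⟨Or.inr rfl, h1⟩)
    rcases le_total w (36/17) with h | h
    · refine main 2 (Or.inr ⟨Or.inl rfl, h1⟩) (Or.inl ⟨?_, ?_⟩)
      · unfold Tinv; rw [le_div_iff_of_neg e2]; simp [nc, nd, na, nb] at *; linarith
      · unfold Tinv; rw [div_le_iff_of_neg e2]; simp [nc, nd, na, nb] at *; linarith
    · rcases le_total w (16/7) with h' | h'
      · refine main 3 (Or.inr ⟨Or.inr rfl, h1⟩) (Or.inl ⟨?_, ?_⟩)
        · unfold Tinv; rw [le_div_iff_of_neg e3]; simp [nc, nd, na, nb] at *; linarith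
        · unfold Tinv; rw [div_le_iff_of_neg e3]; simp [nc, nd, na, nb] at *; linarith
      · rcases le_total w (28/11) with h'' | h''
        · refine main 2 (Or.inr ⟨Or.inl rfl, h1⟩) (Or.inr ⟨?_, ?_⟩)
          · unfold Tinv; rw [le_div_iff_of_neg e2]; simp [nc, nd, na, nb] at *; linarith
          · unfold Tinv; rw [div_le_iff_of_neg e2]; simp [nc, nd, na, nb] at *; linarith
        · refine main 3 (Or.inr ⟨Or.inr rfl, h1⟩) (Or.inr ⟨?_, ?_⟩)
          · unfold Tinv; rw [le_div_iff_of_neg e3]; simp [nc, nd, na, nb] at *; linarith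
          · unfold Tinv; rw [div_le_iff_of_neg e3]; simp [nc, nd, na, nb] at *; linarith

/-- the second coordinate of the extension, in the coordinate `w` -/
lemma ext_formula (i : Fin 4) {x w e : ℝ} (hx : x ∈ Icc (pp i) (qq i)) (hw : w ∈ W)
    (hxw : x - w ≠ 0) :
    D.ext i (x, (x - w)⁻¹ + e) =
      (T i x, (T i x - T i w)⁻¹ + (r i * r i) * (nc i * x + nd i) ^ 2 * e) := by
  have h1 := den_neg i hx
  have h2 := denW i hw
  have h3 := r_pos i
  have h4 := r_sq i
  have h5 := nD_pos i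
  have hdet := det_eq i
  have hT : T i x - T i w = nD i * (x - w) / ((nc i * x + nd i) * (nc i * w + nd i)) := by
    unfold T
    rw [div_sub_div _ _ h1.ne h2.ne]
    congr 1
    rw [← hdet]; ring
  refine Prod.ext ?_ ?_
  · show (r i * na i * x + r i * nb i) / (r i * nc i * x + r i * nd i) = T i x
    exact T_eq i x
  · show (r i * nc i * x + r i * nd i) ^ 2 * ((x - w)⁻¹ + e)
      - r i * nc i * (r i * nc i * x + r i * nd i) = _
    rw [hT]
    have hrr : r i * r i = (nD i)⁻¹ := by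
      field_simp
      linarith
    have e1 : (r i * nc i * x + r i * nd i) ^ 2 = (nD i)⁻¹ * (nc i * x + nd i) ^ 2 := by
      rw [← hrr]; ring
    have e2 : r i * nc i * (r i * nc i * x + r i * nd i)
        = (nD i)⁻¹ * (nc i * (nc i * x + nd i)) := by
      rw [← hrr]; ring
    rw [e1, e2, hrr]
    have h1' := h1.ne
    have h2' := h2.ne
    have h5' := h5.ne'
    field_simp
    ring

lemma sub_pos_IW {x w : ℝ} (hx : x ∈ Icc (4:ℝ) 8) (hw : w ∈ W) : 0 < x - w := by
  have := (W_lt hw).2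
  have := hx.1
  linarith

lemma pp_mem (i : Fin 4) {x : ℝ} (hx : x ∈ Icc (pp i) (qq i)) : x ∈ Icc (4:ℝ) 8 := by
  obtain ⟨h1, h2⟩ := hx
  fin_cases i <;> simp [pp, qq] at * <;> constructor <;> linarith

lemma K_image : D.image K = K := by
  ext z
  constructor
  · intro hz
    obtain ⟨i, ⟨x, y⟩, ⟨⟨⟨x', w⟩, ⟨hx', hw⟩, heq⟩, hxi, -⟩, rfl⟩ := mem_iUnion.1 hz
    simp only [Prod.mk.injEq] at heq
    obtain ⟨rfl, rfl⟩ := heq
    have hxi' : x' ∈ Icc (pp i) (qq i) := hxi
    have h := ext_formula i (e := 0) hxi' hw (sub_pos_IW hx' hw).ne'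
    simp only [add_zero, mul_zero] at h
    rw [h]
    exact ⟨(T i x', T i w), ⟨T_mem i hxi', T_W i hw⟩, rfl⟩
  · rintro ⟨⟨x, w⟩, ⟨hx, hw⟩, rfl⟩
    obtain ⟨i, v, hv, rfl⟩ := T_surj_W hw
    have hx4 : x ∈ Icc (4:ℝ) 8 := hx
    have hxi := Tinv_mem i hx4
    refine mem_iUnion.2 ⟨i, (Tinv i x, (Tinv i x - v)⁻¹), ⟨⟨(Tinv i x, v), ⟨pp_mem i hxi, hv⟩, rfl⟩,
      hxi, trivial⟩, ?_⟩
    have h := ext_formula i (e := 0) hxi hv (sub_pos_IW (pp_mem i hxi) hv).ne'
    simp only [add_zero, mul_zero] at h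
    rw [h, T_Tinv i hx4]

lemma K_fst : Prod.fst '' K = Icc (4:ℝ) 8 := by
  ext x
  constructor
  · rintro ⟨_, ⟨⟨x', w⟩, ⟨hx', hw⟩, rfl⟩, rfl⟩
    exact hx'
  · intro hx
    exact ⟨_, ⟨(x, 0), ⟨hx, Or.inl ⟨le_refl _, by norm_num⟩⟩, rfl⟩, rfl⟩

lemma K_domain : D.IsDomain K := by
  refine ⟨K_compact, K_fst, ?_⟩
  rw [K_image]
  exact K_compact.isClosed.closure_eq.symm

/-- uniqueness: any other domain is contained in `K` -/
lemma sub_K {K' : Set (ℝ × ℝ)} (h : D.IsDomain K') : K' ⊆ K := by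
  obtain ⟨hc, hf, hK⟩ := h
  -- a bound for the second coordinates
  obtain ⟨C, hC⟩ : ∃ C : ℝ, ∀ z ∈ K', |z.2 - z.1⁻¹| ≤ C := by
    have hcont : ContinuousOn (fun z : ℝ × ℝ => |z.2 - z.1⁻¹|) K' := by
      refine ContinuousOn.abs (ContinuousOn.sub (by fun_prop) ?_)
      refine ContinuousOn.inv₀ (by fun_prop) ?_
      intro z hz
      have : z.1 ∈ Icc (4:ℝ) 8 := by
        have := mem_image_of_mem Prod.fst hz
        rw [hf] at this
        exact this
      have := this.1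
      linarith
    obtain ⟨B, hB⟩ := hc.bddAbove_image hcont
    exact ⟨B, fun z hz => hB (mem_image_of_mem _ hz)⟩
  have hC' : ∀ z ∈ K', |z.2 - z.1⁻¹| ≤ |C| := fun z hz => (hC z hz).trans (le_abs_self C)
  have hfst : ∀ z ∈ K', z.1 ∈ Icc (4:ℝ) 8 := by
    intro z hz
    have := mem_image_of_mem Prod.fst hz
    rw [hf] at this
    exact this
  have step : ∀ n : ℕ, ∀ z ∈ K', ∃ w ∈ W, |z.2 - (z.1 - w)⁻¹| ≤ (5/8 : ℝ) ^ n * |C| := by
    intro n
    induction n with
    | zero =>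
      intro z hz
      refine ⟨0, Or.inl ⟨le_refl _, by norm_num⟩, ?_⟩
      simpa using hC' z hz
    | succ n ih =>
      set S : Set (ℝ × ℝ) := (fun t : ℝ × ℝ × ℝ => (t.1, (t.1 - t.2.1)⁻¹ + t.2.2)) ''
        (Icc 4 8 ×ˢ W ×ˢ Icc (-((5/8 : ℝ) ^ (n+1) * |C|)) ((5/8 : ℝ) ^ (n+1) * |C|)) with hS
      have hScomp : IsCompact S := by
        refine (isCompact_Icc.prod (W_compact.prod isCompact_Icc)).image_of_continuousOn ?_
        refine continuousOn_fst.prodMk (ContinuousOn.add ?_ (by fun_prop))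
        refine ContinuousOn.inv₀ (by fun_prop) ?_
        rintro ⟨x, w, e⟩ ⟨hx, hw, -⟩
        exact (sub_pos_IW hx hw).ne'
      have hsub : D.image K' ⊆ S := by
        intro z hz
        obtain ⟨i, ⟨x, y⟩, ⟨hxy, hxi, -⟩, rfl⟩ := mem_iUnion.1 hz
        obtain ⟨w, hw, hwe⟩ := ih _ hxy
        have hxi' : x ∈ Icc (pp i) (qq i) := hxi
        simp only at hwe
        have hx4 := pp_mem i hxi'
        have h := ext_formula i (e := y - (x - w)⁻¹) hxi' hw (sub_pos_IW hx4 hw).ne'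
        rw [add_sub_cancel] at h
        rw [h]
        refine ⟨(T i x, T i w, _), ⟨T_mem i hxi', T_W i hw, ?_⟩, rfl⟩
        show _ ∈ Icc _ _
        refine abs_le.1 ?_
        have h1 : 0 ≤ r i * r i * (nc i * x + nd i) ^ 2 := by
          have := r_pos i
          positivity
        have h2 : r i * r i * (nc i * x + nd i) ^ 2 ≤ 5/8 := by
          have h := den_sq i hxi'
          have h1 := r_sq i
          have h2 := r_pos i
          calc (r i * r i) * (nc i * x + nd i) ^ 2 ≤ (r i * r i) * ((5/8) * nD i) := by gcongr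
            _ = 5/8 * (r i * r i * nD i) := by ring
            _ = 5/8 := by rw [h1]; ring
        rw [abs_mul, abs_of_nonneg h1]
        calc r i * r i * (nc i * x + nd i) ^ 2 * |y - (x - w)⁻¹|
            ≤ (5/8) * ((5/8 : ℝ) ^ n * |C|) := by gcongr
          _ = (5/8 : ℝ) ^ (n+1) * |C| := by ring
      intro z hz
      have hzS : z ∈ S := by
        rw [hK] at hz
        exact (hScomp.isClosed.closure_subset_iff.2 hsub) hz
      obtain ⟨⟨x, w, e⟩, ⟨hx, hw, he⟩, rfl⟩ := hzS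
      refine ⟨w, hw, ?_⟩
      simp only [add_sub_cancel_left]
      rw [abs_le]
      exact he
  intro z hz
  have hz4 := hfst z hz
  -- the fibre is closed
  have hcl : IsClosed ((fun w : ℝ => (z.1 - w)⁻¹) '' W) := by
    refine (W_compact.image_of_continuousOn ?_).isClosed
    refine ContinuousOn.inv₀ (by fun_prop) ?_
    intro w hw
    exact (sub_pos_IW hz4 hw).ne'
  have : z.2 ∈ closure ((fun w : ℝ => (z.1 - w)⁻¹) '' W) := by
    rw [Metric.mem_closure_iff]
    intro ε hε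
    have hlim : Filter.Tendsto (fun n : ℕ => (5/8 : ℝ) ^ n * |C|) Filter.atTop (nhds (0 * |C|)) :=
      (tendsto_pow_atTop_nhds_zero_of_lt_one (by norm_num) (by norm_num)).mul_const _
    rw [zero_mul] at hlim
    obtain ⟨n, hn⟩ := (hlim.eventually (gt_mem_nhds hε)).exists
    obtain ⟨w, hw, hwe⟩ := step n z hz
    exact ⟨_, mem_image_of_mem _ hw, by rw [Real.dist_eq]; linarith⟩
  rw [hcl.closure_eq] at this
  obtain ⟨w, hw, hwz⟩ := this
  exact ⟨(z.1, w), ⟨hz4, hw⟩, Prod.ext rfl hwz⟩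

lemma K_sub {K' : Set (ℝ × ℝ)} (h : D.IsDomain K') : K ⊆ K' := by
  have hsubK := sub_K h
  obtain ⟨hc, hf, hK⟩ := h
  have hclosed := hc.isClosed
  have himg : D.image K' ⊆ K' := by
    conv_rhs => rw [hK]
    exact subset_closure
  -- a bound for K
  obtain ⟨C, hC⟩ : ∃ C : ℝ, ∀ z ∈ K, |z.2| ≤ C := by
    have hcont : ContinuousOn (fun z : ℝ × ℝ => |z.2|) K := by fun_prop
    obtain ⟨B, hB⟩ := K_compact.bddAbove_image hcont
    exact ⟨B, fun z hz => hB (mem_image_of_mem _ hz)⟩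
  have hC0 : 0 ≤ C := by
    have h4 : (4, (4 - 0)⁻¹) ∈ K := ⟨((4:ℝ), (0:ℝ)), ⟨⟨le_refl _, by norm_num⟩,
      Or.inl ⟨le_refl _, by norm_num⟩⟩, rfl⟩
    exact (abs_nonneg _).trans (hC _ h4)
  have step : ∀ n : ℕ, ∀ z ∈ K, ∃ y, (z.1, y) ∈ K' ∧ |z.2 - y| ≤ (5/8 : ℝ) ^ n * (2 * C) := by
    intro n
    induction n with
    | zero =>
      intro z hz
      have : z.1 ∈ Prod.fst '' K' := by
        rw [hf]
        have := mem_image_of_mem Prod.fst hz
        rw [K_fst] at this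
        exact this
      obtain ⟨⟨x, y⟩, hxy, hx⟩ := this
      simp only at hx
      subst hx
      refine ⟨y, hxy, ?_⟩
      have h1 := hC z hz
      have h2 := hC _ (hsubK hxy)
      simp only at h2
      calc |z.2 - y| ≤ |z.2| + |y| := abs_sub _ _
        _ ≤ (5/8 : ℝ) ^ 0 * (2 * C) := by rw [pow_zero]; linarith
    | succ n ih =>
      rintro _ ⟨⟨x, w⟩, ⟨hx, hw⟩, rfl⟩
      obtain ⟨i, v, hv, rfl⟩ := T_surj_W hw
      have hx4 : x ∈ Icc (4:ℝ) 8 := hx
      have hxi := Tinv_mem i hx4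
      have hxi4 := pp_mem i hxi
      obtain ⟨y, hy, hye⟩ := ih (Tinv i x, (Tinv i x - v)⁻¹) ⟨(Tinv i x, v), ⟨hxi4, hv⟩, rfl⟩
      simp only at hy hye
      have h := ext_formula i (e := y - (Tinv i x - v)⁻¹) hxi hv (sub_pos_IW hxi4 hv).ne'
      rw [add_sub_cancel, T_Tinv i hx4] at h
      have hmem : D.ext i (Tinv i x, y) ∈ K' :=
        himg (mem_iUnion.2 ⟨i, (Tinv i x, y), ⟨hy, hxi, trivial⟩, rfl⟩)
      rw [h] at hmem
      refine ⟨_, hmem, ?_⟩
      simp only
      have h1 : 0 ≤ r i * r i * (nc i * Tinv i x + nd i) ^ 2 := by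
        have := r_pos i
        positivity
      have h2 : r i * r i * (nc i * Tinv i x + nd i) ^ 2 ≤ 5/8 := by
        have h := den_sq i hxi
        have h1 := r_sq i
        have h2 := r_pos i
        calc (r i * r i) * (nc i * Tinv i x + nd i) ^ 2 ≤ (r i * r i) * ((5/8) * nD i) := by gcongr
          _ = 5/8 * (r i * r i * nD i) := by ring
          _ = 5/8 := by rw [h1]; ring
      rw [sub_add_cancel_left, abs_neg, abs_mul, abs_of_nonneg h1]
      rw [abs_sub_comm] at hye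
      calc r i * r i * (nc i * Tinv i x + nd i) ^ 2 * |y - (Tinv i x - v)⁻¹|
          ≤ (5/8) * ((5/8 : ℝ) ^ n * (2 * C)) := by gcongr
        _ = (5/8 : ℝ) ^ (n+1) * (2 * C) := by ring
  intro z hz
  have : z ∈ closure K' := by
    rw [Metric.mem_closure_iff]
    intro ε hε
    have hlim : Filter.Tendsto (fun n : ℕ => (5/8 : ℝ) ^ n * (2 * C)) Filter.atTop
        (nhds (0 * (2 * C))) :=
      (tendsto_pow_atTop_nhds_zero_of_lt_one (by norm_num) (by norm_num)).mul_const _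
    rw [zero_mul] at hlim
    obtain ⟨n, hn⟩ := (hlim.eventually (gt_mem_nhds hε)).exists
    obtain ⟨y, hy, hye⟩ := step n z hz
    refine ⟨_, hy, ?_⟩
    rw [Prod.dist_eq, dist_self, Real.dist_eq]
    exact max_lt hε (by linarith)
  rwa [hclosed.closure_eq] at this

lemma K_vol : 0 < volume K := by
  have hsub : (Icc (4:ℝ) (41/10)) ×ˢ (Icc (26/100 : ℝ) (32/100)) ⊆ K := by
    rintro ⟨x, y⟩ ⟨⟨hx1, hx2⟩, ⟨hy1, hy2⟩⟩
    simp only at hx1 hx2 hy1 hy2
    have hy : 0 < y := by linarith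
    refine ⟨(x, x - y⁻¹), ⟨⟨hx1, by simp only; linarith⟩, Or.inl ⟨?_, ?_⟩⟩, ?_⟩
    · simp only [sub_nonneg]
      rw [inv_le_comm₀ hy (by linarith)]
      rw [inv_le_comm₀ (by linarith) hy]
      rw [inv_le_iff_one_le_mul₀ hy]
      nlinarith
    · simp only
      rw [sub_le_iff_le_add]
      have : x - 1 ≤ y⁻¹ := by
        rw [le_inv_comm₀ (by linarith) hy]
        rw [inv_eq_one_div, le_div_iff₀ (by linarith)]
        nlinarith
      linarith
    · simp
  refine lt_of_lt_of_le ?_ (measure_mono hsub)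
  rw [Measure.volume_eq_prod, Measure.prod_prod, Real.volume_Icc, Real.volume_Icc,
    ← ENNReal.ofReal_mul (by norm_num)]
  exact ENNReal.ofReal_pos.2 (by norm_num)

lemma K_not_connected : ¬ IsConnected K := by
  intro h
  have hcont : ContinuousOn (fun z : ℝ × ℝ => z.1 - z.2⁻¹) K := by
    refine ContinuousOn.sub (by fun_prop) (ContinuousOn.inv₀ (by fun_prop) ?_)
    rintro _ ⟨⟨x, w⟩, ⟨hx, hw⟩, rfl⟩
    exact inv_ne_zero (sub_pos_IW hx hw).ne'
  have hconn := h.image _ hcont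
  have himg : (fun z : ℝ × ℝ => z.1 - z.2⁻¹) '' K = W := by
    ext w
    constructor
    · rintro ⟨_, ⟨⟨x, w'⟩, ⟨hx, hw⟩, rfl⟩, rfl⟩
      simpa using hw
    · intro hw
      exact ⟨_, ⟨(4, w), ⟨⟨le_refl _, by norm_num⟩, hw⟩, rfl⟩, by simp⟩
  rw [himg] at hconn
  have h0 : (1:ℝ) ∈ W := Or.inl ⟨by norm_num, le_refl _⟩
  have h3 : (2:ℝ) ∈ W := Or.inr ⟨le_refl _, by norm_num⟩
  have := hconn.isPreconnected.Icc_subset h0 h3 (show (3/2:ℝ) ∈ Icc 1 2 by constructor <;> norm_num)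
  rcases this with ⟨_, h⟩ | ⟨h, _⟩ <;> norm_num at h

/-- There is an orientation preserving piecewise Moebius map with finitely many branches whose
planar domain `K` (the unique compact set projecting onto the interval and equal to the closure of
`T̃(K)`) has positive measure and satisfies `m(K \ T̃(K)) = 0`, but is not connected. -/
theorem result : ∃ (D : PiecewiseMobius (Fin 4)) (K : Set (ℝ × ℝ)),
    D.IsDomain K ∧ (∀ K', D.IsDomain K' → K' = K) ∧
    0 < volume K ∧ volume (K \ D.image K) = 0 ∧ ¬ IsConnected K := by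
  refine ⟨D, K, K_domain, ?_, K_vol, ?_, K_not_connected⟩
  · intro K' h
    exact Subset.antisymm (sub_K h) (K_sub h)
  · rw [K_image, Set.sdiff_self, measure_empty]

end Pool.Agent.Results.MP_68eddd_an.DisconnectedDomain
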